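import Mathlib

namespace Pool.Agent.Results.MP_14365a_gt.RingsAgreeNotPerf

open Set Filter Topology

/-- The ring `T'(X)`: all real functions on `X` that are continuous on some dense open set. -/
def TPrime (X : Type) [TopologicalSpace X] : Set (X → ℝ) :=
  {f | ∃ U : Set X, IsOpen U ∧ Dense U ∧ ContinuousOn f U}

/-- The ring `T''(X)`: all real functions on `X` that are continuous on some dense cozero set. -/
def TDoublePrime (X : Type) [TopologicalSpace X] : Set (X → ℝ) :=
  {f | ∃ h : C(X, ℝ), Dense {x | h x ≠ 0} ∧ ContinuousOn f {x | h x ≠ 0}}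

/-- Perfectly normal: every closed set is the zero set of a continuous real function. -/
def PerfNormal (X : Type) [TopologicalSpace X] : Prop :=
  ∀ F : Set X, IsClosed F → ∃ h : C(X, ℝ), F = {x | h x = 0}

lemma isOpen_singleton_pure (n : ℕ) : IsOpen ({pure n} : Set (Ultrafilter ℕ)) := by
  have : ({pure n} : Set (Ultrafilter ℕ)) = {u | ({n} : Set ℕ) ∈ u} := by
    ext u
    simp only [mem_singleton_iff, mem_setOf_eq]
    constructor
    · rintro rfl
      exact Ultrafilter.mem_pure.mpr rfl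
    · intro h
      have := Ultrafilter.eq_pure_of_finite_mem (finite_singleton n) h
      obtain ⟨m, hm, rfl⟩ := this
      rw [mem_singleton_iff] at hm
      rw [hm]
  rw [this]
  exact ultrafilter_isOpen_basic _

noncomputable def g (n : ℕ) : unitInterval :=
  ⟨1 / ((n : ℝ) + 1), by positivity, by
    rw [div_le_one (by positivity)]; linarith [(Nat.cast_nonneg n : (0 : ℝ) ≤ n)]⟩

noncomputable def hfun : C(Ultrafilter ℕ, ℝ) :=
  ⟨fun u => ((Ultrafilter.extend g u : unitInterval) : ℝ),
    continuous_subtype_val.comp (continuous_ultrafilter_extend g)⟩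

lemma hfun_pure (n : ℕ) : hfun (pure n) = 1 / ((n : ℝ) + 1) := by
  show ((Ultrafilter.extend g (pure n) : unitInterval) : ℝ) = _
  rw [ultrafilter_extend_pure]
  rfl

lemma coz_eq : {u : Ultrafilter ℕ | hfun u ≠ 0} = range (pure : ℕ → Ultrafilter ℕ) := by
  ext u
  simp only [mem_setOf_eq, mem_range]
  constructor
  · intro h
    by_contra hne
    apply h
    have hpos : 0 ≤ hfun u := (Ultrafilter.extend g u).2.1
    apply le_antisymm _ hpos
    apply le_of_forall_pos_le_add
    intro ε hε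
    rw [zero_add]
    -- the closed set {x | hfun x ≤ ε} contains u
    have hcl : IsClosed {x : Ultrafilter ℕ | hfun x ≤ ε} :=
      isClosed_le hfun.continuous continuous_const
    obtain ⟨N, hN⟩ := exists_nat_gt (1 / ε)
    have hmem : {n : ℕ | N ≤ n} ∈ u := by
      by_contra hc
      rw [← Ultrafilter.compl_mem_iff_notMem] at hc
      have hfin : ({n : ℕ | N ≤ n}ᶜ).Finite := by
        apply (finite_lt_nat N).subset
        intro n hn
        simpa using hn
      obtain ⟨m, _, hm⟩ := Ultrafilter.eq_pure_of_finite_mem hfin hc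
      exact hne ⟨m, hm.symm⟩
    by_contra hu
    have hopen : IsOpen {x : Ultrafilter ℕ | ¬ hfun x ≤ ε} := hcl.isOpen_compl
    have hopen2 : IsOpen ({x : Ultrafilter ℕ | ¬ hfun x ≤ ε} ∩ {x | {n : ℕ | N ≤ n} ∈ x}) :=
      hopen.inter (ultrafilter_isOpen_basic _)
    obtain ⟨y, ⟨hy1, hy2⟩, n, rfl⟩ :=
      (denseRange_pure (α := ℕ)).exists_mem_open hopen2 ⟨u, hu, hmem⟩ |>.elim
        (fun n hn => (⟨pure n, hn, n, rfl⟩ : ∃ y, y ∈ ({x : Ultrafilter ℕ | ¬ hfun x ≤ ε} ∩
          {x | {n : ℕ | N ≤ n} ∈ x}) ∧ ∃ n : ℕ, (pure n : Ultrafilter ℕ) = y))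
    have hy2' : N ≤ n := hy2
    apply hy1
    rw [hfun_pure]
    have h1 : (0 : ℝ) < (n : ℝ) + 1 := by positivity
    rw [div_le_iff₀ h1]
    have h2 : (N : ℝ) ≤ n := by exact_mod_cast hy2'
    have h3 : 1 / ε < n + 1 := by linarith
    rw [div_lt_iff₀ hε] at h3
    linarith
  · rintro ⟨n, rfl⟩
    rw [hfun_pure]
    positivity

theorem main_eq : TPrime (Ultrafilter ℕ) = TDoublePrime (Ultrafilter ℕ) := by
  apply Subset.antisymm
  · intro f _
    refine ⟨hfun, ?_, ?_⟩
    · rw [coz_eq]; exact denseRange_pure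
    · rw [coz_eq]
      rintro _ ⟨n, rfl⟩
      apply ContinuousAt.continuousWithinAt
      have h1 : 𝓝 (pure n : Ultrafilter ℕ) = pure (pure n) :=
        (isOpen_singleton_iff_nhds_eq_pure _).mp (isOpen_singleton_pure n)
      rw [ContinuousAt, h1]
      exact tendsto_pure_nhds _ _
  · rintro f ⟨h, hd, hc⟩
    exact ⟨{x | h x ≠ 0}, isOpen_ne_fun h.continuous continuous_const, hd, hc⟩

lemma exists_two_free (B : Set ℕ) (hB : B.Infinite) :
    ∃ p q : Ultrafilter ℕ, p ≠ q ∧ B ∈ p ∧ B ∈ q ∧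
      (∀ s : Set ℕ, s.Finite → s ∉ p) ∧ (∀ s : Set ℕ, s.Finite → s ∉ q) := by
  -- split B in two infinite parts
  obtain ⟨f, hf, hfB⟩ : ∃ f : ℕ → ℕ, Function.Injective f ∧ ∀ n, f n ∈ B := by
    haveI := hB.to_subtype
    exact ⟨fun n => (Infinite.natEmbedding B n : ℕ),
      fun a b hab => (Infinite.natEmbedding B).injective (Subtype.ext hab),
      fun n => (Infinite.natEmbedding B n).2⟩
  let B1 : Set ℕ := f '' {n | Even n}
  let B2 : Set ℕ := f '' {n | ¬ Even n}
  have hB1 : B1.Infinite := by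
    apply Infinite.image hf.injOn
    apply infinite_of_injective_forall_mem (f := fun n : ℕ => 2 * n)
    · intro a b hab; simpa using hab
    · intro n; exact even_two_mul n
  have hB2 : B2.Infinite := by
    apply Infinite.image hf.injOn
    apply infinite_of_injective_forall_mem (f := fun n : ℕ => 2 * n + 1)
    · intro a b hab; simpa using hab
    · intro n
      show ¬ Even (2 * n + 1)
      rw [Nat.not_even_iff_odd]
      exact odd_two_mul_add_one n
  have key : ∀ A : Set ℕ, A.Infinite → ∃ p : Ultrafilter ℕ, A ∈ p ∧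
      ∀ s : Set ℕ, s.Finite → s ∉ p := by
    intro A hA
    haveI : NeBot (cofinite ⊓ 𝓟 A : Filter ℕ) := by
      rw [inf_principal_neBot_iff]
      intro U hU
      by_contra hc
      rw [not_nonempty_iff_eq_empty] at hc
      apply hA
      have hU' : Uᶜ.Finite := mem_cofinite.mp hU
      apply hU'.subset
      intro a ha hau
      have : a ∈ U ∩ A := ⟨hau, ha⟩
      rw [hc] at this
      exact this
    refine ⟨Ultrafilter.of (cofinite ⊓ 𝓟 A), ?_, ?_⟩
    · exact Ultrafilter.of_le _ (mem_inf_of_right (mem_principal_self A))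
    · intro s hs hsp
      have : sᶜ ∈ Ultrafilter.of (cofinite ⊓ 𝓟 A) :=
        Ultrafilter.of_le _ (mem_inf_of_left hs.compl_mem_cofinite)
      exact (Ultrafilter.compl_mem_iff_notMem.mp this) hsp
  obtain ⟨p, hp1, hp2⟩ := key B1 hB1
  obtain ⟨q, hq1, hq2⟩ := key B2 hB2
  have hs1 : B1 ⊆ B := by rintro _ ⟨n, _, rfl⟩; exact hfB n
  have hs2 : B2 ⊆ B := by rintro _ ⟨n, _, rfl⟩; exact hfB n
  refine ⟨p, q, ?_, mem_of_superset hp1 hs1, mem_of_superset hq1 hs2, hp2, hq2⟩
  rintro rfl
  have : B1 ∩ B2 ∈ p := inter_mem hp1 hq1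
  have hem : B1 ∩ B2 = ∅ := by
    ext x
    simp only [mem_inter_iff, mem_empty_iff_false, iff_false, not_and]
    rintro ⟨a, ha, rfl⟩ ⟨b, hb, hab⟩
    have := hf hab
    subst this
    exact hb ha
  rw [hem] at this
  exact hp2 ∅ finite_empty this

theorem not_perf : ¬ PerfNormal (Ultrafilter ℕ) := by
  intro hP
  obtain ⟨p, _, _, _, _, hp, _⟩ := exists_two_free univ infinite_univ
  obtain ⟨h, hh⟩ := hP {p} isClosed_singleton
  -- for each n choose a set A n ∈ p with |h| ≤ 1/(n+1) on the basic open set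
  have h0 : h p = 0 := by
    have : p ∈ ({p} : Set (Ultrafilter ℕ)) := rfl
    rw [hh] at this
    exact this
  have hA : ∀ n : ℕ, ∃ A : Set ℕ, A ∈ p ∧ ∀ u : Ultrafilter ℕ, A ∈ u → |h u| < 1 / ((n : ℝ) + 1) := by
    intro n
    have hop : IsOpen {u : Ultrafilter ℕ | |h u| < 1 / ((n : ℝ) + 1)} :=
      isOpen_lt (by fun_prop) continuous_const
    have hmem : p ∈ {u : Ultrafilter ℕ | |h u| < 1 / ((n : ℝ) + 1)} := by
      show |h p| < _
      rw [h0, abs_zero]
      positivity
    obtain ⟨t, ⟨A, rfl⟩, hpt, hsub⟩ :=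
      ultrafilterBasis_is_basis.exists_subset_of_mem_open hmem hop
    exact ⟨A, hpt, fun u hu => hsub hu⟩
  choose A hAp hA using hA
  -- finite intersections are infinite
  have hinf : ∀ n : ℕ, (⋂ k ∈ Finset.range (n + 1), A k).Infinite := by
    intro n hfin
    refine hp _ hfin ?_
    have := (Filter.biInter_finset_mem (f := (p : Filter ℕ)) (s := A) (Finset.range (n + 1))).mpr
      (fun k _ => hAp k)
    exact this
  have hsel : ∀ n : ℕ, ∀ m : ℕ, ∃ a, m < a ∧ ∀ k ≤ n, a ∈ A k := by
    intro n m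
    obtain ⟨a, ha, hma⟩ := (hinf n).exists_gt m
    refine ⟨a, hma, fun k hk => ?_⟩
    simp only [mem_iInter, Finset.mem_range] at ha
    exact ha k (by omega)
  choose s hs1 hs2 using hsel
  let a : ℕ → ℕ := fun n => Nat.rec (s 0 0) (fun n prev => s (n + 1) prev) n
  have ha_succ : ∀ n, a (n + 1) = s (n + 1) (a n) := fun n => rfl
  have ha_mono : StrictMono a := by
    apply strictMono_nat_of_lt_succ
    intro n
    rw [ha_succ]
    exact hs1 _ _
  have haA : ∀ n k, k ≤ n → a n ∈ A k := by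
    intro n k hk
    cases n with
    | zero => exact hs2 0 0 k hk
    | succ n => rw [ha_succ]; exact hs2 _ _ k hk
  obtain ⟨u, v, huv, hBu, hBv, hu, hv⟩ := exists_two_free (range a)
    (infinite_range_of_injective ha_mono.injective)
  have hzero : ∀ w : Ultrafilter ℕ, range a ∈ w → (∀ s : Set ℕ, s.Finite → s ∉ w) → w = p := by
    intro w hw1 hw2
    have hAk : ∀ k, A k ∈ w := by
      intro k
      have hfin : (a '' {n | n < k}).Finite := (finite_lt_nat k).image a
      have h1 : (a '' {n | n < k})ᶜ ∈ w := Ultrafilter.compl_mem_iff_notMem.mpr (hw2 _ hfin)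
      apply mem_of_superset (inter_mem hw1 h1)
      rintro _ ⟨⟨n, rfl⟩, hn⟩
      apply haA
      by_contra hc
      exact hn ⟨n, not_le.mp hc, rfl⟩
    have hw0 : h w = 0 := by
      have : ∀ n : ℕ, |h w| ≤ 1 / ((n : ℝ) + 1) := fun n => (hA n w (hAk n)).le
      have hlim : Tendsto (fun n : ℕ => 1 / ((n : ℝ) + 1)) atTop (𝓝 0) :=
        tendsto_one_div_add_atTop_nhds_zero_nat
      have := ge_of_tendsto' hlim this
      exact abs_eq_zero.mp (le_antisymm this (abs_nonneg _))
    have : w ∈ ({p} : Set (Ultrafilter ℕ)) := by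
      rw [hh]; exact hw0
    exact this
  exact huv ((hzero u hBu hu).trans (hzero v hBv hv).symm)

/-- There is a compact Hausdorff space with `T'(X) = T''(X)` that is not perfectly normal. -/
theorem result : ∃ (X : Type) (_ : TopologicalSpace X), CompactSpace X ∧ T2Space X ∧
    TPrime X = TDoublePrime X ∧ ¬ PerfNormal X :=
  ⟨Ultrafilter ℕ, inferInstance, inferInstance, inferInstance, main_eq, not_perf⟩

end Pool.Agent.Results.MP_14365a_gt.RingsAgreeNotPerf
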